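import Pool.Agent.helper81.PJ.Spec

/-!
# Project pj (MP_f6e9a2_nt), row NU1: sums over the points `(m + b) / (b' - b)`
-/

set_option autoImplicit false

open Finset

namespace Pool.Agent.PJ

open Pool.Agent.PY2

/-- number of `n < N` with `n + z.1 = x (z.2 - z.1)` -/
private noncomputable def NU1_c {p : ℕ} (N : ℕ) (z : ZMod p × ZMod p) (x : ZMod p) : ℝ :=
  (((range N).filter fun n : ℕ => ((n : ℕ) : ZMod p) + z.1 = x * (z.2 - z.1)).card : ℝ)

private theorem NU1_fib {p : ℕ} [Fact p.Prime] (N : ℕ) (z : ZMod p × ZMod p) (hz : z.2 - z.1 ≠ 0)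
    (F : ZMod p → ℝ) :
    ∑ n ∈ range N, F ((((n : ℕ) : ZMod p) + z.1) / (z.2 - z.1)) = ∑ x : ZMod p, NU1_c N z x * F x := by
  rw [← Finset.sum_fiberwise_of_maps_to (s := range N) (t := Finset.univ)
    (g := fun n : ℕ => (((n : ℕ) : ZMod p) + z.1) / (z.2 - z.1)) (fun _ _ => Finset.mem_univ _)]
  refine Finset.sum_congr rfl fun x _ => ?_
  unfold NU1_c
  rw [← nsmul_eq_mul, ← Finset.sum_const]
  have e : ((range N).filter fun n : ℕ => (((n : ℕ) : ZMod p) + z.1) / (z.2 - z.1) = x) =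
      ((range N).filter fun n : ℕ => ((n : ℕ) : ZMod p) + z.1 = x * (z.2 - z.1)) := by
    ext n
    simp only [mem_filter]
    rw [div_eq_iff hz]
  rw [e]
  refine Finset.sum_congr rfl fun n hn => ?_
  rw [mem_filter] at hn
  have h2 : (((n : ℕ) : ZMod p) + z.1) / (z.2 - z.1) = x := by
    rw [div_eq_iff hz]; exact hn.2
  rw [h2]

theorem NU1 (hMAX : MAX_stmt) (hSH1 : SH1_stmt) : NU1_stmt := by
  intro p _ χ k N L n B hk hL hLp hN
  have _h := hMAX
  have key : ∀ j, ∀ z ∈ pr B L j, (2 : ℝ) ^ n * ‖Gc χ N z.1 z.2‖ ≤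
      ∑ x : ZMod p, NU1_c (3 * N) z x * mj k n (c1 χ x) := by
    intro j z hz
    unfold pr at hz
    rw [mem_filter, mem_product] at hz
    obtain ⟨⟨hz1, hz2⟩, hlt⟩ := hz
    unfold cl at hz1 hz2
    rw [mem_filter] at hz1 hz2
    obtain ⟨h, hh⟩ : ∃ h, z.2.val = z.1.val + h := ⟨z.2.val - z.1.val, by omega⟩
    have hh1 : 1 ≤ h := by omega
    have hhL : h < L := by
      have e1 : L * j ≤ z.1.val := by
        have := Nat.div_mul_le_self z.1.val L
        rw [hz1.2] at this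
        rw [mul_comm]; exact this
      have e2 : z.2.val < L * (j + 1) := by
        have := Nat.lt_mul_div_succ z.2.val (show 0 < L by omega)
        rw [hz2.2] at this
        exact this
      have e3 : L * (j + 1) = L * j + L := by ring
      omega
    have hhp : h < p := by omega
    have e : z.2 = z.1 + (h : ZMod p) := by
      have e1 : ((z.2.val : ℕ) : ZMod p) = z.2 := ZMod.natCast_zmod_val z.2
      have e2 : ((z.1.val : ℕ) : ZMod p) = z.1 := ZMod.natCast_zmod_val z.1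
      rw [← e1, hh]
      push_cast
      rw [e2]
    have e' : z.2 - z.1 = (h : ZMod p) := by rw [e]; ring
    have hne : z.2 - z.1 ≠ 0 := by
      rw [e']
      intro h0
      rw [ZMod.natCast_eq_zero_iff] at h0
      exact absurd (Nat.le_of_dvd (by omega) h0) (by omega)
    have hNh : 2 ^ n * h ≤ N := (Nat.mul_le_mul_left _ hhL.le).trans hN
    have h2 := hSH1 p χ k N n h z.1 hk hh1 hhp hNh
    rw [← e] at h2
    have h3 := NU1_fib (3 * N) z hne (fun x => mj k n (c1 χ x))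
    rw [e'] at h3
    exact h2.trans h3.le
  unfold WW
  rw [Finset.mul_sum]
  have hA : ∑ j ∈ range p, (2 : ℝ) ^ n * (((cl B L j).card : ℝ)⁻¹ * ∑ z ∈ pr B L j, ‖Gc χ N z.1 z.2‖) ≤
      ∑ j ∈ range p, ((cl B L j).card : ℝ)⁻¹ * ∑ z ∈ pr B L j,
        ∑ x : ZMod p, NU1_c (3 * N) z x * mj k n (c1 χ x) := by
    refine Finset.sum_le_sum fun j _ => ?_
    rw [show (2 : ℝ) ^ n * (((cl B L j).card : ℝ)⁻¹ * ∑ z ∈ pr B L j, ‖Gc χ N z.1 z.2‖) =
      ((cl B L j).card : ℝ)⁻¹ * ((2 : ℝ) ^ n * ∑ z ∈ pr B L j, ‖Gc χ N z.1 z.2‖) by ring]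
    refine mul_le_mul_of_nonneg_left ?_ (by positivity)
    rw [Finset.mul_sum]
    exact Finset.sum_le_sum fun z hz => key j z hz
  refine hA.trans (le_of_eq ?_)
  have e2 : ∀ x : ZMod p, nu B (3 * N) L x * mj k n (c1 χ x) =
      ∑ j ∈ range p, ((cl B L j).card : ℝ)⁻¹ *
        ∑ z ∈ pr B L j, NU1_c (3 * N) z x * mj k n (c1 χ x) := by
    intro x
    unfold nu NU1_c
    rw [Finset.sum_mul]
    refine Finset.sum_congr rfl fun j _ => ?_
    rw [mul_assoc, Finset.sum_mul]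
  rw [Finset.sum_congr rfl fun x _ => e2 x, Finset.sum_comm]
  refine Finset.sum_congr rfl fun j _ => ?_
  rw [← Finset.mul_sum, Finset.sum_comm]

end Pool.Agent.PJ
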